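import Pool.Agent.Lib.MP_a569f2_lc.Build

open Pool.Agent.Lib.MP_a569f2_lc

/-- `FSPDA_n` is the family of homomorphic images of intersections of a context-free language
with an `(n+1)`-parallel right-linear language; the latter can be taken to be the language of
`n+1` coloured blocks of equal positive length. -/
theorem Pool.Agent.Results.MP_a569f2_lc.Characterisation.result
    (T : Type) (n : ℕ) (L : Language T) :
    List.TFAE
      [FSPDA n L,
       ∃ (Δ : Type) (_ : Finite Δ) (K P : Language Δ) (h : Δ → List T),
        K.IsContextFree ∧ PRL (n + 1) P ∧ L = homImage h (K ⊓ P),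
       ∃ (Δ : Type) (_ : Finite Δ) (K : Language Δ) (c : Δ → Fin (n + 1)) (h : Δ → List T),
        K.IsContextFree ∧ L = homImage h (K ⊓ EqBlocks c)] := by
  tfae_have 1 ↔ 2 := fspda_iff_formB
  tfae_have 1 ↔ 3 := fspda_iff_formC
  tfae_finish
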