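import Pool.Agent.Lib.MP_a569f2_lc.Strict

open Pool.Agent.Lib.MP_a569f2_lc

/-- Over every alphabet with at least two letters the families `FSPDA_n` form an infinite
proper hierarchy. -/
theorem Pool.Agent.Results.MP_a569f2_lc.Hierarchy.result
    (T : Type) [Nontrivial T] (n : ℕ) :
    {L : Language T | FSPDA n L} ⊂ {L : Language T | FSPDA (n + 1) L} := by
  refine ⟨fun L hL => FSPDA.succ hL, fun h => ?_⟩
  obtain ⟨L, h1, h2⟩ := strict (T := T) n
  exact h2 (h h1)
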